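import Pool.Agent.K4H59.TL.Spec

/-!
# Piece G10 of MP_885f6d_mp: the decomposition of a polygon (assembly)
-/

open Set Topology

namespace Pool.Agent.K4H59.TL

open Pool.Agent.K4H72.Til (IsPolygon ShareEdge IsTiling Tile Derivable Adj HasLocEig)

theorem g10_int {Q : Set ℂ} (hQ : IsPolygon Q) : (interior Q).Nonempty := by
  obtain ⟨⟨x, hx⟩, _, h3, _⟩ := hQ
  have h1 := h3 hx
  by_contra h0
  rw [Set.not_nonempty_iff_eq_empty] at h0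
  rw [h0, closure_empty] at h1
  exact h1

open Classical in
/-- abstract form: a family of pieces `P b h j` -/
theorem g10_abs {K : Set ℂ} (P : Bool → (ℂ →L[ℝ] ℝ) → ℕ → Set ℂ) (A : Bool → (ℂ →L[ℝ] ℝ) → Prop)
    (hfin : {p : Bool × (ℂ →L[ℝ] ℝ) | A p.1 p.2}.Countable)
    (F1 : ∀ b h j, A b h → IsPolygon (P b h j))
    (F2 : ∀ b h j, A b h → P b h j ⊆ K)
    (F3 : ∀ b h j, A b h → 1 ≤ j → P b h j ⊆ interior K)
    (F4 : ∀ b h j b' h' j', A b h → A b' h' → ¬ (b = b' ∧ h = h' ∧ j = j') →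
      Disjoint (interior (P b h j)) (interior (P b' h' j')))
    (F5 : ∀ b h j, A b h → Share (P b h j) (P b h (j + 1)))
    (F6 : ∀ b h j b' h' j', A b h → A b' h' → Share (P b' h' j') (P b h (j + 1)) →
      (b' = b ∧ h' = h ∧ j' = j) ∨ j + 1 ≤ j')
    (F7 : ∀ x ∈ K, ∃ b h j, A b h ∧ x ∈ P b h j) :
    ∃ (D : Set (Set ℂ)) (ρ : Set ℂ → ℕ), GoodDec K D ρ := by
  let D : Set (Set ℂ) := {Q | ∃ b h j, A b h ∧ Q = P b h j}
  let ρ : Set ℂ → ℕ := fun Q => if hQ : ∃ j b h, A b h ∧ Q = P b h j then hQ.choose else 0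
  have hρ : ∀ b h j, A b h → ρ (P b h j) = j := by
    intro b h j hA
    have hQ : ∃ j' b' h', A b' h' ∧ P b h j = P b' h' j' := ⟨j, b, h, hA, rfl⟩
    have e : ρ (P b h j) = hQ.choose := dif_pos hQ
    obtain ⟨b', h', hA', e'⟩ := hQ.choose_spec
    rw [e]
    by_contra hne
    have h1 := F4 b h j b' h' hQ.choose hA hA' (fun h2 => hne h2.2.2.symm)
    rw [← e'] at h1
    obtain ⟨x, hx⟩ := g10_int (F1 b h j hA)
    exact Set.disjoint_left.1 h1 hx hx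
  refine ⟨D, ρ, ?_, ?_, ?_, ?_, ?_, ?_, ?_⟩
  · -- countable
    have h1 : D ⊆ (fun p : (Bool × (ℂ →L[ℝ] ℝ)) × ℕ => P p.1.1 p.1.2 p.2) ''
        ({p : Bool × (ℂ →L[ℝ] ℝ) | A p.1 p.2} ×ˢ (Set.univ : Set ℕ)) := by
      rintro Q ⟨b, h, j, hA, rfl⟩
      exact ⟨((b, h), j), ⟨hA, Set.mem_univ _⟩, rfl⟩
    exact ((hfin.prod Set.countable_univ).image _).mono h1
  · rintro Q ⟨b, h, j, hA, rfl⟩
    exact F1 b h j hA
  · rintro Q ⟨b, h, j, hA, rfl⟩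
    exact F2 b h j hA
  · intro x hx
    obtain ⟨b, h, j, hA, hxP⟩ := F7 x hx
    exact ⟨_, ⟨b, h, j, hA, rfl⟩, hxP⟩
  · rintro Q ⟨b, h, j, hA, rfl⟩ Q' ⟨b', h', j', hA', rfl⟩ hne
    apply F4 b h j b' h' j' hA hA'
    rintro ⟨rfl, rfl, rfl⟩
    exact hne rfl
  · rintro Q ⟨b, h, j, hA, rfl⟩ h1
    rw [hρ b h j hA] at h1
    exact F3 b h j hA h1
  · rintro Q ⟨b, h, j, hA, rfl⟩
    refine ⟨P b h (j + 1), ⟨b, h, j + 1, hA, rfl⟩, ?_, F5 b h j hA, ?_⟩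
    · rw [hρ b h (j + 1) hA, hρ b h j hA]
    · rintro Q' ⟨b', h', j', hA', rfl⟩ _ hs hle
      rw [hρ b' h' j' hA', hρ b h j hA] at hle
      rcases F6 b h j b' h' j' hA hA' hs with ⟨rfl, rfl, rfl⟩ | h2
      · rfl
      · omega

theorem g10_zero (f : ℂ →L[ℝ] ℝ) (O : ℂ) (U : Set ℂ) (hU : IsOpen U) (x : ℂ) (hx : x ∈ U)
    (c : ℝ) (h : ∀ y ∈ U, f (y - O) = c) : f = 0 := by
  apply ContinuousLinearMap.ext
  intro v
  have hc : Continuous (fun t : ℝ => x + t • v) := by fun_prop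
  have h1 : ∀ᶠ t : ℝ in 𝓝 0, x + t • v ∈ U := by
    apply hc.continuousAt.eventually
    apply hU.mem_nhds
    simpa using hx
  obtain ⟨t, ht, ht0⟩ := ((h1.filter_mono nhdsWithin_le_nhds).and
    (self_mem_nhdsWithin : ∀ᶠ t : ℝ in 𝓝[≠] 0, t ≠ 0)).exists
  have e1 := h x hx
  have e2 := h _ ht
  have e3 : f (x + t • v - O) = f (x - O) + t * f v := by
    rw [show x + t • v - O = (x - O) + t • v by abel, map_add, map_smul, smul_eq_mul]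
  have e4 : t * f v = 0 := by
    rw [e3, e1] at e2
    linarith
  rcases mul_eq_zero.1 e4 with h5 | h5
  · exact absurd h5 ht0
  · simpa using h5

theorem share_symm {K L : Set ℂ} (h : Share K L) : Share L K := by
  obtain ⟨e, h1, h2⟩ := h
  exact ⟨e, h2, h1⟩

/-- PIECE G10; the pieces G2 - G9 are the hypotheses, with exactly their statements -/
theorem exists_dec_of
    (g_centers : ∀ {K : Set ℂ}, IsPolygon K →
      ∃ (O₁ O₂ : ℂ) (H₁ H₂ : Finset (ℂ →L[ℝ] ℝ)) (f₀ : ℂ →L[ℝ] ℝ), f₀ ≠ 0 ∧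
        O₁ ∈ interior K ∧ O₂ ∈ interior K ∧ Rep K O₁ H₁ ∧ Rep K O₂ H₂ ∧ f₀ (O₂ - O₁) = 0 ∧
        O₁ ≠ O₂ ∧ (∀ h ∈ H₁, h (O₂ - O₁) ≤ 1 / 2) ∧ ∃ h ∈ H₁, h (O₂ - O₁) = 1 / 2)
    (g_cover : ∀ {K : Set ℂ} {O : ℂ} {H : Finset (ℂ →L[ℝ] ℝ)} {f₀ : ℂ →L[ℝ] ℝ},
      Rep K O H → f₀ ≠ 0 → ∀ {x : ℂ}, x ∈ K → f₀ (x - O) ≤ 0 → x ≠ O →
        ∃ h j, Act H f₀ h ∧ x ∈ pc H f₀ O h j)
    (g_polygon : ∀ {K : Set ℂ} {O : ℂ} {H : Finset (ℂ →L[ℝ] ℝ)} {f₀ h : ℂ →L[ℝ] ℝ},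
      Rep K O H → IsCompact K → f₀ ≠ 0 → Act H f₀ h → ∀ j : ℕ, IsPolygon (pc H f₀ O h j))
    (g_disj : ∀ {K : Set ℂ} {O : ℂ} {H : Finset (ℂ →L[ℝ] ℝ)} {f₀ h h' : ℂ →L[ℝ] ℝ} {j j' : ℕ},
      Rep K O H → Act H f₀ h → Act H f₀ h' → ¬ (h = h' ∧ j = j') →
        Disjoint (interior (pc H f₀ O h j)) (interior (pc H f₀ O h' j')))
    (g_sub : ∀ {K : Set ℂ} {O : ℂ} {H : Finset (ℂ →L[ℝ] ℝ)} {f₀ h : ℂ →L[ℝ] ℝ} {j : ℕ},
      Rep K O H → pc H f₀ O h j ⊆ K)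
    (g_inner : ∀ {K : Set ℂ} {O : ℂ} {H : Finset (ℂ →L[ℝ] ℝ)} {f₀ h : ℂ →L[ℝ] ℝ} {j : ℕ},
      Rep K O H → 1 ≤ j → pc H f₀ O h j ⊆ interior K)
    (g_next : ∀ {K : Set ℂ} {O : ℂ} {H : Finset (ℂ →L[ℝ] ℝ)} {f₀ h : ℂ →L[ℝ] ℝ},
      Rep K O H → f₀ ≠ 0 → Act H f₀ h → ∀ j : ℕ, Share (pc H f₀ O h j) (pc H f₀ O h (j + 1)))
    (g_rank : ∀ {K : Set ℂ} {O : ℂ} {H : Finset (ℂ →L[ℝ] ℝ)} {f₀ h h' : ℂ →L[ℝ] ℝ} {j j' : ℕ},
      Rep K O H → Act H f₀ h → Act H f₀ h' →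
        Share (pc H f₀ O h' j') (pc H f₀ O h (j + 1)) → (h' = h ∧ j' = j) ∨ j + 1 ≤ j')
    (g_no : ∀ {K : Set ℂ} {f₀ h h' : ℂ →L[ℝ] ℝ} {j j' : ℕ} {O₁ O₂ : ℂ}
      {H₁ H₂ : Finset (ℂ →L[ℝ] ℝ)}, f₀ ≠ 0 → Rep K O₁ H₁ → Rep K O₂ H₂ → f₀ (O₂ - O₁) = 0 →
        O₁ ≠ O₂ → (∀ h ∈ H₁, h (O₂ - O₁) ≤ 1 / 2) → (∃ h ∈ H₁, h (O₂ - O₁) = 1 / 2) →
        Act H₁ f₀ h → Act H₂ (-f₀) h' → ¬ Share (pc H₁ f₀ O₁ h j) (pc H₂ (-f₀) O₂ h' j'))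
    {K : Set ℂ} (hK : IsPolygon K) : ∃ (D : Set (Set ℂ)) (ρ : Set ℂ → ℕ), GoodDec K D ρ := by
  obtain ⟨O₁, O₂, H₁, H₂, f₀, hf, hO₁, hO₂, R1, R2, h12, hne, hB1, hB2⟩ := g_centers hK
  have hf' : -f₀ ≠ 0 := neg_ne_zero.2 hf
  let P : Bool → (ℂ →L[ℝ] ℝ) → ℕ → Set ℂ := fun b h j =>
    if b then pc H₁ f₀ O₁ h j else pc H₂ (-f₀) O₂ h j
  let A : Bool → (ℂ →L[ℝ] ℝ) → Prop := fun b h => if b then Act H₁ f₀ h else Act H₂ (-f₀) h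
  have h0 : ∀ x : ℂ, f₀ (x - O₂) = f₀ (x - O₁) := by
    intro x
    rw [show x - O₂ = (x - O₁) - (O₂ - O₁) by abel, map_sub, h12, sub_zero]
  -- the two sides
  have hside : ∀ h j h' j', Disjoint (interior (pc H₁ f₀ O₁ h j)) (interior (pc H₂ (-f₀) O₂ h' j')) := by
    intro h j h' j'
    rw [Set.disjoint_left]
    intro x hx hx'
    apply hf
    refine g10_zero f₀ O₁ (interior (pc H₁ f₀ O₁ h j) ∩ interior (pc H₂ (-f₀) O₂ h' j'))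
      (isOpen_interior.inter isOpen_interior) x ⟨hx, hx'⟩ 0 ?_
    intro y hy
    have h1 := (interior_subset hy.1).1
    have h2 := (interior_subset hy.2).1
    rw [neg_apply, h0] at h2
    linarith
  apply g10_abs P A
  · -- countable
    have h1 : {p : Bool × (ℂ →L[ℝ] ℝ) | A p.1 p.2} ⊆
        (Set.univ : Set Bool) ×ˢ ((H₁ : Set (ℂ →L[ℝ] ℝ)) ∪ (H₂ : Set (ℂ →L[ℝ] ℝ))) := by
      rintro ⟨b, h⟩ hA
      refine ⟨Set.mem_univ _, ?_⟩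
      cases b
      · exact Or.inr hA.1
      · exact Or.inl hA.1
    exact ((Set.countable_univ).prod
      ((H₁.countable_toSet).union (H₂.countable_toSet))).mono h1
  · intro b h j hA
    cases b
    · exact g_polygon R2 hK.2.1 hf' hA j
    · exact g_polygon R1 hK.2.1 hf hA j
  · intro b h j hA
    cases b
    · exact g_sub R2
    · exact g_sub R1
  · intro b h j hA hj
    cases b
    · exact g_inner R2 hj
    · exact g_inner R1 hj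
  · intro b h j b' h' j' hA hA' hn
    cases b <;> cases b'
    · exact g_disj R2 hA hA' (fun h1 => hn ⟨rfl, h1.1, h1.2⟩)
    · exact (hside h' j' h j).symm
    · exact hside h j h' j'
    · exact g_disj R1 hA hA' (fun h1 => hn ⟨rfl, h1.1, h1.2⟩)
  · intro b h j hA
    cases b
    · exact g_next R2 hf' hA j
    · exact g_next R1 hf hA j
  · intro b h j b' h' j' hA hA' hs
    cases b <;> cases b'
    · rcases g_rank R2 hA hA' hs with h1 | h1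
      · exact Or.inl ⟨rfl, h1.1, h1.2⟩
      · exact Or.inr h1
    · exact absurd hs (g_no hf R1 R2 h12 hne hB1 hB2 hA' hA)
    · exact absurd (share_symm hs) (g_no hf R1 R2 h12 hne hB1 hB2 hA hA')
    · rcases g_rank R1 hA hA' hs with h1 | h1
      · exact Or.inl ⟨rfl, h1.1, h1.2⟩
      · exact Or.inr h1
  · intro x hx
    rcases le_or_gt (f₀ (x - O₁)) 0 with h1 | h1
    · by_cases h2 : x = O₁
      · obtain ⟨h, j, hA, hxP⟩ := g_cover R2 hf' hx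
          (by rw [neg_apply, h0, h2, sub_self, map_zero, neg_zero]) (by rw [h2]; exact hne)
        exact ⟨false, h, j, hA, hxP⟩
      · obtain ⟨h, j, hA, hxP⟩ := g_cover R1 hf hx h1 h2
        exact ⟨true, h, j, hA, hxP⟩
    · obtain ⟨h, j, hA, hxP⟩ := g_cover R2 hf' hx
        (by rw [neg_apply, h0]; linarith) (by
          intro h2
          rw [h2, h12] at h1
          exact lt_irrefl _ h1)
      exact ⟨false, h, j, hA, hxP⟩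

end Pool.Agent.K4H59.TL
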