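import Pool.Agent.K4H59.TL.Spec

/-!
# Piece G4 of MP_885f6d_mp: the interiors of the pieces are disjoint
-/

open Set Topology

namespace Pool.Agent.K4H59.TL

theorem g4_zero (f : P2 →L[ℝ] ℝ) (O : P2) (U : Set P2) (hU : IsOpen U) (x : P2) (hx : x ∈ U)
    (c : ℝ) (h : ∀ y ∈ U, f (y - O) = c) : f = 0 := by
  apply ContinuousLinearMap.ext
  intro v
  have hc : Continuous (fun t : ℝ => x + t • v) := by fun_prop
  have h1 : ∀ᶠ t : ℝ in 𝓝 0, x + t • v ∈ U := by
    apply hc.continuousAt.eventually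
    apply hU.mem_nhds
    simpa using hx
  obtain ⟨t, ht, ht0⟩ := ((h1.filter_mono nhdsWithin_le_nhds).and
    (self_mem_nhdsWithin : ∀ᶠ t : ℝ in 𝓝[≠] 0, t ≠ 0)).exists
  have e1 := h x hx
  have e2 := h _ ht
  have e3 : f (x + t • v - O) = f (x - O) + t * f v := by
    rw [show x + t • v - O = (x - O) + t • v by abel, map_add, map_smul, smul_eq_mul]
  have e4 : t * f v = 0 := by
    rw [e3, e1] at e2
    linarith
  rcases mul_eq_zero.1 e4 with h5 | h5
  · exact absurd h5 ht0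
  · simpa using h5

theorem g4_level {H : Finset (P2 →L[ℝ] ℝ)} {O : P2} {f₀ h : P2 →L[ℝ] ℝ} {j j' : ℕ} (hj : j < j')
    (x : P2) (hx : x ∈ interior (pc H f₀ O h j)) (hx' : x ∈ interior (pc H f₀ O h j')) : False := by
  have hU : IsOpen (interior (pc H f₀ O h j) ∩ interior (pc H f₀ O h j')) :=
    isOpen_interior.inter isOpen_interior
  have h1 : ∀ y ∈ interior (pc H f₀ O h j) ∩ interior (pc H f₀ O h j'),
      h (y - O) = (1 / 2 : ℝ) ^ (j + 1) := by
    intro y hy
    have h2 := interior_subset hy.1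
    have h3 := interior_subset hy.2
    have h4 : (1 / 2 : ℝ) ^ j' ≤ (1 / 2 : ℝ) ^ (j + 1) :=
      pow_le_pow_of_le_one (by norm_num) (by norm_num) hj
    exact le_antisymm (h3.2.2.2.trans h4) h2.2.2.1
  have h2 := g4_zero h O _ hU x ⟨hx, hx'⟩ _ h1
  have h3 := h1 x ⟨hx, hx'⟩
  rw [h2] at h3
  have h4 : (0 : ℝ) < (1 / 2 : ℝ) ^ (j + 1) := by positivity
  rw [← h3] at h4
  simp at h4

/-- PIECE G4 -/
theorem pc_disj {K : Set P2} {O : P2} {H : Finset (P2 →L[ℝ] ℝ)} {f₀ h h' : P2 →L[ℝ] ℝ} {j j' : ℕ}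
    (hR : Rep K O H) (hA : Act H f₀ h) (hA' : Act H f₀ h') (hne : ¬ (h = h' ∧ j = j')) :
    Disjoint (interior (pc H f₀ O h j)) (interior (pc H f₀ O h' j')) := by
  have _ := hR
  rw [Set.disjoint_left]
  intro x hx hx'
  have hU : IsOpen (interior (pc H f₀ O h j) ∩ interior (pc H f₀ O h' j')) :=
    isOpen_interior.inter isOpen_interior
  have h1 : ∀ y ∈ interior (pc H f₀ O h j) ∩ interior (pc H f₀ O h' j'),
      (h - h') (y - O) = 0 := by
    intro y hy
    have h2 := interior_subset hy.1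
    have h3 := interior_subset hy.2
    have h4 := h2.2.1 h' hA'.1
    have h5 := h3.2.1 h hA.1
    rw [sub_apply]
    linarith
  have h2 := g4_zero (h - h') O _ hU x ⟨hx, hx'⟩ _ h1
  have h3 : h = h' := sub_eq_zero.1 h2
  subst h3
  have hj : j ≠ j' := fun e => hne ⟨rfl, e⟩
  rcases lt_or_gt_of_ne hj with h4 | h4
  · exact g4_level h4 x hx hx'
  · exact g4_level h4 x hx' hx

end Pool.Agent.K4H59.TL
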