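import Pool.Agent.K4H59.TL.Spec

/-!
# Piece G6 of MP_885f6d_mp: consecutive pieces share an edge
-/

open Set Topology

namespace Pool.Agent.K4H59.TL

theorem g6_shift (U : Set ℂ) (hU : IsOpen U) (x : ℂ) (hx : x ∈ U) (v : ℂ) :
    ∃ t : ℝ, t ≠ 0 ∧ x + t • v ∈ U := by
  have hc : Continuous (fun t : ℝ => x + t • v) := by fun_prop
  have h1 : ∀ᶠ t : ℝ in 𝓝 0, x + t • v ∈ U := by
    apply hc.continuousAt.eventually
    apply hU.mem_nhds
    simpa using hx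
  obtain ⟨t, ht, ht0⟩ := ((h1.filter_mono nhdsWithin_le_nhds).and
    (self_mem_nhdsWithin : ∀ᶠ t : ℝ in 𝓝[≠] 0, t ≠ 0)).exists
  exact ⟨t, ht0, ht⟩

theorem g6_ker (h : ℂ →L[ℝ] ℝ) (y : ℂ) (hy : h y ≠ 0) : ∃ v : ℂ, v ≠ 0 ∧ h v = 0 := by
  refine ⟨(h Complex.I) • (1 : ℂ) - (h 1) • Complex.I, ?_, ?_⟩
  · intro h0
    have h1 : h Complex.I = 0 := by
      have := congrArg Complex.re h0
      simpa using this
    have h2 : h 1 = 0 := by
      have := congrArg Complex.im h0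
      simpa using this
    apply hy
    have h3 : y = y.re • (1 : ℂ) + y.im • Complex.I := by
      apply Complex.ext <;> simp
    rw [h3, map_add, map_smul, map_smul, h1, h2]
    simp
  · rw [map_sub, map_smul, map_smul, smul_eq_mul, smul_eq_mul]
    ring

/-- PIECE G6 -/
theorem pc_share_next {K : Set ℂ} {O : ℂ} {H : Finset (ℂ →L[ℝ] ℝ)} {f₀ h : ℂ →L[ℝ] ℝ}
    (hR : Rep K O H) (hf : f₀ ≠ 0) (hA : Act H f₀ h) (j : ℕ) :
    Share (pc H f₀ O h j) (pc H f₀ O h (j + 1)) := by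
  have _ := hf
  have hc : (0 : ℝ) < (1 / 2 : ℝ) ^ (j + 1) := by positivity
  have hc1 : (1 / 2 : ℝ) ^ (j + 1) ≤ (1 / 2 : ℝ) ^ j :=
    pow_le_pow_of_le_one (by norm_num) (by norm_num) (Nat.le_succ j)
  have hc2 : (1 / 2 : ℝ) ^ (j + 1 + 1) ≤ (1 / 2 : ℝ) ^ (j + 1) :=
    pow_le_pow_of_le_one (by norm_num) (by norm_num) (Nat.le_succ _)
  set c : ℝ := (1 / 2 : ℝ) ^ (j + 1) with hcdef
  -- a nonzero point of the open cone
  obtain ⟨hH, y, hy⟩ := hA
  set U : Set ℂ := interior {y : ℂ | f₀ y ≤ 0 ∧ ∀ h' ∈ H, h' y ≤ h y} with hU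
  have hUo : IsOpen U := isOpen_interior
  obtain ⟨y₀, hy₀, hne⟩ : ∃ y₀ ∈ U, y₀ ≠ 0 := by
    by_cases h0 : y = 0
    · obtain ⟨t, ht, htU⟩ := g6_shift U hUo y hy 1
      refine ⟨_, htU, ?_⟩
      rw [h0, zero_add]
      exact smul_ne_zero ht one_ne_zero
    · exact ⟨y, hy, h0⟩
  have hpos : 0 < h y₀ := by
    obtain ⟨h', hh', hp⟩ := hR.pos y₀ hne
    exact lt_of_lt_of_le hp ((interior_subset hy₀).2 h' hh')
  obtain ⟨v, hv0, hv⟩ := g6_ker h y₀ hpos.ne'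
  obtain ⟨t, ht, hy₁⟩ := g6_shift U hUo y₀ hy₀ v
  set y₁ : ℂ := y₀ + t • v with hy₁def
  have hh1 : h y₁ = h y₀ := by
    rw [hy₁def, map_add, map_smul, hv, smul_zero, add_zero]
  set s : ℝ := c / h y₀ with hs
  have hs0 : 0 < s := div_pos hc hpos
  have hsc : s * h y₀ = c := div_mul_cancel₀ _ hpos.ne'
  -- the edge
  set e : Set ℂ := {x | f₀ (x - O) ≤ 0 ∧ (∀ h' ∈ H, h' (x - O) ≤ h (x - O)) ∧ h (x - O) = c} with he
  have hmem : ∀ z ∈ U, h z = h y₀ → O + s • z ∈ e := by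
    intro z hz hzz
    have h1 := interior_subset hz
    have h2 : O + s • z - O = s • z := by abel
    refine ⟨?_, ?_, ?_⟩
    · rw [h2, map_smul, smul_eq_mul]
      exact mul_nonpos_of_nonneg_of_nonpos hs0.le h1.1
    · intro h' hh'
      rw [h2, map_smul, map_smul, smul_eq_mul, smul_eq_mul]
      exact mul_le_mul_of_nonneg_left (h1.2 h' hh') hs0.le
    · rw [h2, map_smul, smul_eq_mul, hzz, hsc]
  have hnt : e.Nontrivial := by
    refine ⟨_, hmem y₀ hy₀ rfl, _, hmem y₁ hy₁ hh1, ?_⟩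
    intro h0
    have h1 : s • y₀ = s • y₁ := add_left_cancel h0
    have h2 : y₀ = y₁ := smul_right_injective ℂ hs0.ne' h1
    have h3 : t • v = 0 := by
      rw [hy₁def] at h2
      exact (left_eq_add.1 h2)
    exact smul_ne_zero ht hv0 h3
  have hh0 : h ≠ 0 := by
    intro h0
    rw [h0] at hpos
    simp at hpos
  refine ⟨e, ⟨hnt, -h, -(h O) - c, neg_ne_zero.2 hh0, ?_, ?_⟩, ⟨hnt, h, h O + c, hh0, ?_, ?_⟩⟩
  · intro x hx
    have h1 := hx.2.2.1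
    rw [map_sub] at h1
    rw [neg_apply]
    linarith
  · ext x
    constructor
    · rintro ⟨h1, h2, h3⟩
      refine ⟨⟨h1, h2, h3.ge, h3.le.trans hc1⟩, ?_⟩
      rw [map_sub] at h3
      rw [neg_apply]
      linarith
    · rintro ⟨h1, h2⟩
      refine ⟨h1.1, h1.2.1, ?_⟩
      rw [neg_apply] at h2
      rw [map_sub]
      linarith
  · intro x hx
    have h1 := hx.2.2.2
    rw [map_sub] at h1
    linarith
  · ext x
    constructor
    · rintro ⟨h1, h2, h3⟩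
      refine ⟨⟨h1, h2, hc2.trans h3.ge, h3.le⟩, ?_⟩
      rw [map_sub] at h3
      linarith
    · rintro ⟨h1, h2⟩
      refine ⟨h1.1, h1.2.1, ?_⟩
      rw [map_sub]
      linarith

end Pool.Agent.K4H59.TL
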